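import Pool.Agent.W689.Mk.Cone3
import Pool.Agent.W689.Mk.Star

set_option autoImplicit false

open Set Filter Topology Metric
open Pool.Agent.W689.Mk

namespace Pool.Agent.TH878.Mk

section basic
variable {X E : Type} [TopologicalSpace X] [T2Space X] [NormedAddCommGroup E] [NormedSpace ℝ E]
  {dev : X → E}

/-- the velocities which are defined up to time one at every point -/
def CD (dev : X → E) : Set E := {v | ∀ x : X, ∃ y, Ex dev x v y}

theorem Ex.shrink {x : X} {v : E} {y : X} (h : Ex dev x v y) {t : ℝ} (h0 : 0 ≤ t) (h1 : t ≤ 1) :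
    ∃ z, Ex dev x (t • v) z := by
  obtain ⟨U, σ, hs, hx, hσx, hy, hσy⟩ := h
  have hm : dev x + t • v ∈ U := by
    have := hs.convex hx hy (a := 1 - t) (b := t) (by linarith) h0 (by ring)
    convert this using 1
    rw [smul_add, ← add_assoc, ← add_smul]
    simp
  exact ⟨σ (dev x + t • v), U, σ, hs, hx, hσx, hm, rfl⟩

theorem CD.shrink {v : E} (hv : v ∈ CD dev) {t : ℝ} (h0 : 0 ≤ t) (h1 : t ≤ 1) : t • v ∈ CD dev :=
  fun x => by
    obtain ⟨y, hy⟩ := hv x
    exact Ex.shrink hy h0 h1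

theorem Ex.refl (hloc : IsLocalHomeomorph dev) (x : X) : Ex dev x 0 x := by
  obtain ⟨e, r, hxe, he, hr, hrt⟩ := exists_sec hloc x
  have hτ := sec_of_target e he (dev x) r hrt
  refine ⟨ball (dev x) r, e.symm, hτ, mem_ball_self hr, ?_, ?_, ?_⟩
  · rw [he]; exact e.left_inv hxe
  · rw [add_zero]; exact mem_ball_self hr
  · rw [add_zero, he]; exact e.left_inv hxe

theorem zero_mem_CD (hloc : IsLocalHomeomorph dev) : (0 : E) ∈ CD dev :=
  fun x => ⟨x, Ex.refl hloc x⟩

/-- the broken geodesic gives a lift of the straight one -/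
theorem Ex.add_CD (hloc : IsLocalHomeomorph dev) {x y1 : X} {v w : E} (hy1 : Ex dev x v y1)
    (hw : w ∈ CD dev) : ∃ z, Ex dev x (v + w) z := by
  classical
  apply Geod.ex hloc
  -- first leg
  obtain ⟨U, σ, hs, hxU, hσx, hyU, hσy⟩ := hy1
  have hm : ∀ t ∈ Icc (0 : ℝ) 1, dev x + t • v ∈ U := by
    intro t ht
    have := hs.convex hxU hyU (a := 1 - t) (b := t) (by linarith [ht.2]) ht.1 (by ring)
    convert this using 1
    rw [smul_add, ← add_assoc, ← add_smul]
    simp
  have hleg : ∀ t ∈ Icc (0 : ℝ) 1, ∃ z, Ex dev (σ (dev x + t • v)) (t • w) z := by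
    intro t ht
    exact CD.shrink hw ht.1 ht.2 _
  let c : ℝ → X := fun t => if h : ∃ z, Ex dev (σ (dev x + t • v)) (t • w) z then h.choose else x
  have hc : ∀ t ∈ Icc (0 : ℝ) 1, Ex dev (σ (dev x + t • v)) (t • w) (c t) := by
    intro t ht
    have h1 := hleg t ht
    have h2 : c t = h1.choose := dif_pos h1
    rw [h2]
    exact h1.choose_spec
  refine ⟨c, ?_, ?_, ?_⟩
  · intro t0 ht0
    -- the second leg at time t0
    obtain ⟨V, τ, hs', hyV, hτy, hzV, hτz⟩ := hc t0 ht0
    rw [hs.inv _ (hm t0 ht0)] at hyV hτy hzV hτz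
    -- near t0 the first leg is given by τ
    have hcont : ContinuousWithinAt (fun t : ℝ => dev x + t • v) (Icc 0 1) t0 :=
      (continuous_const.add (continuous_id.smul continuous_const)).continuousWithinAt
    have hUV : U ∩ V ∈ 𝓝 (dev x + t0 • v) :=
      inter_mem (hs.isOpen.mem_nhds (hm t0 ht0)) (hs'.isOpen.mem_nhds hyV)
    have e1 : ∀ᶠ t in 𝓝[Icc 0 1] t0, dev x + t • v ∈ U ∩ V := hcont.eventually_mem hUV
    have hcont2 : ContinuousWithinAt (fun t : ℝ => dev x + t • v + t • w) (Icc 0 1) t0 :=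
      ((continuous_const.add (continuous_id.smul continuous_const)).add
        (continuous_id.smul continuous_const)).continuousWithinAt
    have e2 : ∀ᶠ t in 𝓝[Icc 0 1] t0, dev x + t • v + t • w ∈ V :=
      hcont2.eventually_mem (hs'.isOpen.mem_nhds hzV)
    have e3 : ∀ᶠ t in 𝓝[Icc 0 1] t0, c t = τ (dev x + t • v + t • w) := by
      filter_upwards [e1, e2, self_mem_nhdsWithin] with t h1 h2 ht
      have h3 : σ (dev x + t • v) = τ (dev x + t • v) :=
        hs.eqOn hloc hs' (hm t0 ht0) hyV hτy.symm _ h1.1 h1.2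
      have h4 : Ex dev (σ (dev x + t • v)) (t • w) (τ (dev x + t • v + t • w)) := by
        rw [h3]
        exact hs'.Ex h1.2 h2
      exact (hc t ht).unique hloc h4
    have h5 : ContinuousWithinAt (fun t : ℝ => τ (dev x + t • v + t • w)) (Icc 0 1) t0 :=
      ContinuousAt.comp_continuousWithinAt (g := τ) (f := fun t : ℝ => dev x + t • v + t • w)
        ((hs'.cont _ hzV).continuousAt (hs'.isOpen.mem_nhds hzV)) hcont2
    have h6 : c t0 = τ (dev x + t0 • v + t0 • w) := hτz.symm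
    exact h5.congr_of_eventuallyEq e3 h6
  · have h0 : (0 : ℝ) ∈ Icc (0 : ℝ) 1 := ⟨le_refl _, zero_le_one⟩
    have h1 := hc 0 h0
    rw [zero_smul, add_zero, hσx, zero_smul] at h1
    exact h1.unique hloc (Ex.refl hloc x)
  · intro t ht
    rw [(hc t ht).dev_eq, hs.inv _ (hm t ht), smul_add, add_assoc]

theorem CD.add (hloc : IsLocalHomeomorph dev) {v w : E} (hv : v ∈ CD dev) (hw : w ∈ CD dev) :
    v + w ∈ CD dev := by
  intro x
  obtain ⟨y1, hy1⟩ := hv x
  exact Ex.add_CD hloc hy1 hw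

theorem CD.nat (hloc : IsLocalHomeomorph dev) {v : E} (hv : v ∈ CD dev) (n : ℕ) :
    (n : ℝ) • v ∈ CD dev := by
  induction n with
  | zero => simpa using zero_mem_CD hloc
  | succ k ih =>
    rw [Nat.cast_succ, add_smul, one_smul]
    exact CD.add hloc ih hv

theorem CD.smul (hloc : IsLocalHomeomorph dev) {v : E} (hv : v ∈ CD dev) {t : ℝ} (ht : 0 ≤ t) :
    t • v ∈ CD dev := by
  obtain ⟨n, hn⟩ := exists_nat_gt t
  have hn0 : (0 : ℝ) < n := lt_of_le_of_lt ht hn
  have h1 := CD.nat hloc hv n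
  have h2 := CD.shrink h1 (t := t / n) (by positivity) ((div_le_one hn0).2 hn.le)
  rwa [smul_smul, div_mul_cancel₀ _ hn0.ne'] at h2

theorem CD.convex (hloc : IsLocalHomeomorph dev) : Convex ℝ (CD dev) := by
  intro v hv w hw a b ha hb _
  exact CD.add hloc (CD.smul hloc hv ha) (CD.smul hloc hw hb)

end basic

section slab
variable {X E : Type} [TopologicalSpace X] [T2Space X] [NormedAddCommGroup E] [NormedSpace ℝ E]
  {dev : X → E}

/-- an open slab -/
def Slab (φ : E →L[ℝ] ℝ) (a b : ℝ) : Set E := {q | a < φ q ∧ φ q < b}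

theorem Slab.isOpen (φ : E →L[ℝ] ℝ) (a b : ℝ) : IsOpen (Slab φ a b) :=
  (isOpen_lt continuous_const φ.continuous).inter (isOpen_lt φ.continuous continuous_const)

theorem Slab.convex (φ : E →L[ℝ] ℝ) (a b : ℝ) : Convex ℝ (Slab φ a b) := by
  intro p hp q hq s t hs ht hst
  have e : φ (s • p + t • q) = s * φ p + t * φ q := by simp
  constructor
  · rw [e]
    have h1 : a = s * a + t * a := by rw [← add_mul, hst, one_mul]
    rcases eq_or_lt_of_le hs with h0 | h0
    · have : t = 1 := by rw [← h0] at hst; linarith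
      rw [← h0, this]; linarith [hq.1]
    · rw [h1]
      have := mul_lt_mul_of_pos_left hp.1 h0
      have := mul_le_mul_of_nonneg_left hq.1.le ht
      linarith
  · rw [e]
    have h1 : b = s * b + t * b := by rw [← add_mul, hst, one_mul]
    rcases eq_or_lt_of_le hs with h0 | h0
    · have : t = 1 := by rw [← h0] at hst; linarith
      rw [← h0, this]; linarith [hq.2]
    · rw [h1]
      have := mul_lt_mul_of_pos_left hp.2 h0
      have := mul_le_mul_of_nonneg_left hq.2.le ht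
      linarith

/-- if the directions of a hyperplane are complete, every point sees a slab -/
theorem slab_sec (hloc : IsLocalHomeomorph dev) {φ : E →L[ℝ] ℝ} (hφ : φ ≠ 0)
    (hker : ∀ f, φ f = 0 → f ∈ CD dev) (y : X) :
    ∃ a b τ, Sec dev (Slab φ a b) τ ∧ dev y ∈ Slab φ a b ∧ τ (dev y) = y := by
  obtain ⟨w, hw⟩ : ∃ w, φ w ≠ 0 := by
    by_contra h
    push Not at h
    exact hφ (ContinuousLinearMap.ext h)
  let u : E := (φ w)⁻¹ • w
  have hu : φ u = 1 := by simp [u, hw]
  obtain ⟨e, r, hxe, he, hr, hrt⟩ := exists_sec hloc y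
  have hτ := sec_of_target e he (dev y) r hrt
  have hey : e.symm (dev y) = y := by rw [he]; exact e.left_inv hxe
  let ε : ℝ := r / (‖u‖ + 1)
  have hε : 0 < ε := by positivity
  let H : Set E := Slab φ (-ε) ε
  have hE : ∀ v ∈ H, ∃ z, Ex dev y v z := by
    intro v hv
    have h1 : |φ v| < ε := abs_lt.2 hv
    have h2 : dev y + φ v • u ∈ ball (dev y) r := by
      rw [mem_ball, dist_eq_norm, add_sub_cancel_left, norm_smul, Real.norm_eq_abs]
      have h3 : |φ v| * (‖u‖ + 1) < r := by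
        rw [← lt_div_iff₀ (by positivity)]
        exact h1
      have h4 : |φ v| * ‖u‖ ≤ |φ v| * (‖u‖ + 1) := by
        have := abs_nonneg (φ v)
        nlinarith
      linarith
    have h3 := hτ.Ex (mem_ball_self hr) h2
    rw [hey] at h3
    have h4 : v - φ v • u ∈ CD dev := hker _ (by rw [map_sub, map_smul, hu]; simp)
    have h5 := Ex.add_CD hloc h3 h4
    rwa [add_sub_cancel] at h5
  obtain ⟨σ, hσ, hσE⟩ := sec_of_Ex hloc (x := y) (Slab.isOpen φ (-ε) ε) (Slab.convex φ (-ε) ε) hE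
  have hset : (fun q => q - dev y) ⁻¹' H = Slab φ (φ (dev y) - ε) (φ (dev y) + ε) := by
    ext q
    simp only [H, Slab, mem_preimage, mem_setOf_eq, map_sub]
    constructor
    · rintro ⟨h1, h2⟩; constructor <;> linarith
    · rintro ⟨h1, h2⟩; constructor <;> linarith
  refine ⟨φ (dev y) - ε, φ (dev y) + ε, σ, ?_, ?_, ?_⟩
  · rw [← hset]; exact hσ
  · constructor <;> linarith
  · have h0 : (0 : E) ∈ H := by
      constructor
      · rw [map_zero]; linarith
      · rw [map_zero]; exact hε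
    have h1 := hσE 0 h0
    rw [add_zero] at h1
    exact h1.unique hloc (Ex.refl hloc y)

/-- two overlapping slabs -/
theorem slab_union {φ : E →L[ℝ] ℝ} {a b a' b' : ℝ} {p : E} (h : p ∈ Slab φ a b)
    (h' : p ∈ Slab φ a' b') : Slab φ (min a a') (max b b') ⊆ Slab φ a b ∪ Slab φ a' b' := by
  rintro q ⟨h1, h2⟩
  by_cases hq : a < φ q
  · by_cases hq' : φ q < b
    · exact Or.inl ⟨hq, hq'⟩
    · right
      push Not at hq'
      refine ⟨h'.1.trans (h.2.trans_le hq'), ?_⟩
      rcases lt_max_iff.1 h2 with h3 | h3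
      · exact absurd h3 (not_lt.2 hq')
      · exact h3
  · right
    push Not at hq
    refine ⟨?_, (hq.trans_lt h.1).trans h'.2⟩
    rcases min_lt_iff.1 h1 with h3 | h3
    · exact absurd h3 (not_lt.2 hq)
    · exact h3

/-- all pairs of points lie in a common slab section -/
theorem slab_all [PreconnectedSpace X] (hloc : IsLocalHomeomorph dev) {φ : E →L[ℝ] ℝ}
    (hφ : φ ≠ 0) (hker : ∀ f, φ f = 0 → f ∈ CD dev) (x y : X) :
    ∃ a b τ, Sec dev (Slab φ a b) τ ∧ (dev x ∈ Slab φ a b ∧ τ (dev x) = x) ∧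
      (dev y ∈ Slab φ a b ∧ τ (dev y) = y) := by
  let G : Set X := {y | ∃ a b τ, Sec dev (Slab φ a b) τ ∧ (dev x ∈ Slab φ a b ∧ τ (dev x) = x) ∧
      (dev y ∈ Slab φ a b ∧ τ (dev y) = y)}
  have hop : IsOpen G := by
    rw [isOpen_iff_mem_nhds]
    rintro y ⟨a, b, τ, hτ, hx, hy⟩
    have h1 := hτ.isOpen_image hloc (Slab.isOpen φ a b) Subset.rfl
    refine mem_of_superset (h1.mem_nhds ⟨dev y, hy.1, hy.2⟩) ?_
    rintro _ ⟨q, hq, rfl⟩
    refine ⟨a, b, τ, hτ, hx, ?_⟩
    rw [hτ.inv q hq]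
    exact ⟨hq, rfl⟩
  have hcl : IsClosed G := by
    rw [← isOpen_compl_iff, isOpen_iff_mem_nhds]
    intro y hy
    obtain ⟨a', b', τ', hτ', hy1, hy2⟩ := slab_sec hloc hφ hker y
    have h1 := hτ'.isOpen_image hloc (Slab.isOpen φ a' b') Subset.rfl
    refine mem_of_superset (h1.mem_nhds ⟨dev y, hy1, hy2⟩) ?_
    rintro _ ⟨q, hq, rfl⟩ ⟨a, b, τ, hτ, hx, hz⟩
    rw [hτ'.inv q hq] at hz
    apply hy
    obtain ⟨ρ, hρ, hρ1, hρ2⟩ := Sec.glue hloc hτ hτ' hz.1 hq hz.2
      (Slab.isOpen φ (min a a') (max b b')) (Slab.convex φ _ _) (slab_union hz.1 hq)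
    refine ⟨_, _, ρ, hρ, ⟨⟨?_, ?_⟩, ?_⟩, ⟨⟨?_, ?_⟩, ?_⟩⟩
    · exact (min_le_left _ _).trans_lt hx.1.1
    · exact hx.1.2.trans_le (le_max_left _ _)
    · rw [hρ1 _ hx.1]; exact hx.2
    · exact (min_le_right _ _).trans_lt hy1.1
    · exact hy1.2.trans_le (le_max_right _ _)
    · rw [hρ2 _ hy1]; exact hy2
  have hne : G.Nonempty := by
    obtain ⟨a, b, τ, hτ, h1, h2⟩ := slab_sec hloc hφ hker x
    exact ⟨x, a, b, τ, hτ, ⟨h1, h2⟩, ⟨h1, h2⟩⟩
  have := IsClopen.eq_univ ⟨hcl, hop⟩ hne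
  have h : y ∈ G := by rw [this]; trivial
  exact h

end slab

section general
variable {E : Type} [NormedAddCommGroup E] [NormedSpace ℝ E] [FiniteDimensional ℝ E]

/-- the interior of a spanning convex cone is an open convex cone -/
theorem oc_interior {C : Set E} (h0 : (0 : E) ∈ C) (hC : Convex ℝ C)
    (hcone : ∀ v ∈ C, ∀ t : ℝ, 0 ≤ t → t • v ∈ C) (hspan : Submodule.span ℝ C = ⊤) :
    OC (interior C) := by
  have hne : (interior C).Nonempty := by
    rw [hC.interior_nonempty_iff_affineSpan_eq_top]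
    rw [eq_top_iff]
    intro p _
    have h1 : (p : E) ∈ (affineSpan ℝ C).direction := by
      have h2 : Submodule.span ℝ C ≤ (affineSpan ℝ C).direction := by
        rw [Submodule.span_le]
        intro v hv
        have := AffineSubspace.vsub_mem_direction (mem_affineSpan ℝ hv) (mem_affineSpan ℝ h0)
        simpa using this
      exact h2 (hspan ▸ Submodule.mem_top)
    have h3 := AffineSubspace.vadd_mem_of_mem_direction h1 (mem_affineSpan ℝ h0)
    simpa using h3
  refine ⟨isOpen_interior, hC.interior, ?_, hne⟩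
  intro v hv t ht
  have h1 : IsOpen ((fun w : E => t • w) '' interior C) :=
    (isOpenMap_smul₀ ht.ne') _ isOpen_interior
  have h2 : (fun w : E => t • w) '' interior C ⊆ C := by
    rintro _ ⟨w, hw, rfl⟩
    exact hcone w (interior_subset hw) t ht.le
  exact (interior_maximal h2 h1) ⟨v, hv, rfl⟩

end general

section data
variable {X Γ E : Type} [TopologicalSpace X] [T2Space X] [Group Γ] [MulAction Γ X]
  [NormedAddCommGroup E] [NormedSpace ℝ E] [FiniteDimensional ℝ E] {dev : X → E}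
  {hol : Γ →* (E ≃ᵃ[ℝ] E)}

theorem CD.lin (D : AffData X Γ E dev hol) (γ : Γ) {v : E} (hv : v ∈ CD dev) :
    lin hol γ v ∈ CD dev := by
  intro x
  obtain ⟨y, hy⟩ := hv (γ⁻¹ • x)
  have h1 := D.Ex_smul γ hy
  rw [smul_inv_smul] at h1
  exact ⟨_, h1⟩

theorem lin_interior {C : Set E} (hinv : ∀ γ : Γ, ∀ v ∈ C, lin hol γ v ∈ C) (γ : Γ) {v : E}
    (hv : v ∈ interior C) : lin hol γ v ∈ interior C := by
  have hcont : Continuous (fun w : E => lin hol γ⁻¹ w) :=
    ((hol γ⁻¹).linear : E →ₗ[ℝ] E).continuous_of_finiteDimensional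
  have h1 : (fun w : E => lin hol γ⁻¹ w) ⁻¹' interior C ⊆ C := by
    intro w hw
    have h2 := hinv γ _ (interior_subset hw)
    have h3 := lin_inv_apply (hol := hol) γ⁻¹ w
    rw [inv_inv] at h3
    rwa [h3] at h2
  have h4 : IsOpen ((fun w : E => lin hol γ⁻¹ w) ⁻¹' interior C) := isOpen_interior.preimage hcont
  refine interior_maximal h1 h4 ?_
  show lin hol γ⁻¹ (lin hol γ v) ∈ interior C
  rw [lin_inv_apply]
  exact hv

/-- complete directions whose holonomy orbits span -/
theorem complete_of_dirs [SecondCountableTopology X] [ConnectedSpace X]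
    (D : AffData X Γ E dev hol) (hspan : Submodule.span ℝ (CD dev) = ⊤) : IsHomeomorph dev := by
  have hR : OC (interior (CD dev)) :=
    oc_interior (zero_mem_CD D.loc) (CD.convex D.loc) (fun v hv t ht => CD.smul D.loc hv ht) hspan
  obtain ⟨x0⟩ := (inferInstance : Nonempty X)
  exact cone_complete D hR (fun γ v hv => lin_interior (fun γ v hv => CD.lin D γ hv) γ hv)
    (x0 := x0) fun v hv => interior_subset hv x0

/-- a hyperplane of complete directions -/
theorem complete_of_hyperplane [SecondCountableTopology X] [ConnectedSpace X]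
    (D : AffData X Γ E dev hol) {φ : E →L[ℝ] ℝ} (hφ : φ ≠ 0)
    (hker : ∀ f, φ f = 0 → f ∈ CD dev) : IsHomeomorph dev := by
  have hall := slab_all D.loc hφ hker
  have hinj : Function.Injective dev := by
    intro x y hxy
    obtain ⟨a, b, τ, hτ, hx, hy⟩ := hall x y
    rw [← hx.2, ← hy.2, hxy]
  have hconv : Convex ℝ (range dev) := by
    rintro _ ⟨x, rfl⟩ _ ⟨y, rfl⟩ s t hs ht hst
    obtain ⟨a, b, τ, hτ, hx, hy⟩ := hall x y
    have h1 := Slab.convex φ a b hx.1 hy.1 hs ht hst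
    exact ⟨_, hτ.inv _ h1⟩
  have hsurj : range dev = univ := by
    refine convex_univ' D hconv (range_nonempty dev) ?_
    rintro γ _ ⟨x, rfl⟩
    exact ⟨γ • x, D.equi γ x⟩
  exact ⟨D.loc.continuous, D.loc.isOpenMap, hinj, range_eq_univ.1 hsurj⟩

/-- the directions of translation of a set -/
def Tr (C : Set E) : Set E := {v | ∀ q ∈ C, ∀ t : ℝ, 0 ≤ t → q + t • v ∈ C}

theorem invariant_univ [SecondCountableTopology X] [Nonempty X]
    (D : AffData X Γ E dev hol) {C S : Set E} (hne : C.Nonempty)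
    (hinv : ∀ γ : Γ, ∀ q ∈ C, hol γ q ∈ C)
    (hS : ∀ q ∈ C, ∀ v ∈ S, ∀ t : ℝ, 0 ≤ t → t ≤ 1 → q + t • v ∈ C)
    (hspan : Submodule.span ℝ {w : E | ∃ γ : Γ, ∃ v ∈ S, (hol γ).linear v = w} = ⊤) :
    C = univ := by
  have h0 : (0 : E) ∈ Tr C := fun q hq t _ => by rwa [smul_zero, add_zero]
  have hadd : ∀ v ∈ Tr C, ∀ w ∈ Tr C, v + w ∈ Tr C := by
    intro v hv w hw q hq t ht
    have := hw _ (hv q hq t ht) t ht
    rwa [add_assoc, ← smul_add] at this
  have hsm : ∀ v ∈ Tr C, ∀ s : ℝ, 0 ≤ s → s • v ∈ Tr C := by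
    intro v hv s hs q hq t ht
    rw [smul_smul]
    exact hv q hq _ (mul_nonneg ht hs)
  have hconv : Convex ℝ (Tr C) := fun v hv w hw a b ha hb _ =>
    hadd _ (hsm v hv a ha) _ (hsm w hw b hb)
  have hlin : ∀ γ : Γ, ∀ v ∈ Tr C, lin hol γ v ∈ Tr C := by
    intro γ v hv q hq t ht
    have h1 := hinv γ _ (hv _ (hinv γ⁻¹ q hq) t ht)
    rw [hol_add, hol_apply_inv, lin_smul] at h1
    exact h1
  have hnat : ∀ v ∈ S, ∀ n : ℕ, ∀ q ∈ C, ∀ t : ℝ, 0 ≤ t → t ≤ n → q + t • v ∈ C := by
    intro v hv n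
    induction n with
    | zero =>
      intro q hq t h1 h2
      have : t = 0 := le_antisymm (by simpa using h2) h1
      rwa [this, zero_smul, add_zero]
    | succ k ih =>
      intro q hq t h1 h2
      rcases le_total t k with h3 | h3
      · exact ih q hq t h1 h3
      · have h4 := ih q hq k (Nat.cast_nonneg k) le_rfl
        have h5 := hS _ h4 v hv (t - k) (by linarith) (by push_cast at h2; linarith)
        rwa [add_assoc, ← add_smul, add_sub_cancel] at h5
  have hST : ∀ v ∈ S, v ∈ Tr C := by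
    intro v hv q hq t ht
    obtain ⟨n, hn⟩ := exists_nat_gt t
    exact hnat v hv n q hq t ht hn.le
  have hspan' : Submodule.span ℝ (Tr C) = ⊤ := by
    rw [eq_top_iff, ← hspan, Submodule.span_le]
    rintro _ ⟨γ, v, hv, rfl⟩
    exact Submodule.subset_span (hlin γ v (hST v hv))
  have hR : OC (interior (Tr C)) := oc_interior h0 hconv hsm hspan'
  refine cone_univ D hR (fun γ v hv => lin_interior hlin γ hv) hne hinv ?_
  intro p hp r hr
  have h1 := interior_subset hr p hp 1 zero_le_one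
  rwa [one_smul] at h1

theorem span_sub {P : E → Prop} {T : Set E} (h0 : P 0) (hadd : ∀ v w, P v → P w → P (v + w))
    (hsm : ∀ v, P v → ∀ t : ℝ, 0 ≤ t → P (t • v)) (hT : ∀ v ∈ T, P v ∧ P (-v)) :
    ∀ v ∈ Submodule.span ℝ T, P v := by
  have key : ∀ v ∈ Submodule.span ℝ T, P v ∧ P (-v) := by
    intro v hv
    induction hv using Submodule.span_induction with
    | mem v hv => exact hT v hv
    | zero => simpa using h0
    | add v w _ _ h1 h2 =>
      refine ⟨hadd _ _ h1.1 h2.1, ?_⟩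
      rw [neg_add]
      exact hadd _ _ h1.2 h2.2
    | smul t v _ h =>
      rcases le_total 0 t with ht | ht
      · refine ⟨hsm _ h.1 t ht, ?_⟩
        rw [← smul_neg]
        exact hsm _ h.2 t ht
      · have h1 := hsm _ h.2 (-t) (by linarith)
        have h2 := hsm _ h.1 (-t) (by linarith)
        rw [neg_smul_neg] at h1
        rw [neg_smul] at h2
        exact ⟨h1, h2⟩
  exact fun v hv => (key v hv).1

end data

end Pool.Agent.TH878.Mk
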