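import Pool.Agent.W689.Ch.Core
import Pool.Agent.TH878.Mk.Dirs

set_option autoImplicit false

open Set Filter Topology Metric
open Pool.Agent.W689.Mk (lin hol_add hol_sub hol_inv_apply hol_apply_inv lin_inv_apply lin_mul
  lin_smul lin_neg hol_cont Sec Ex Geod Geod.ex)
open Pool.Agent.W689.Ch (AffMfd Wt exists_wt av av_cont av_mem field_of_convex cont_tsum locComp)

namespace Pool.Agent.TH878.Mk

section
variable {X Γ E : Type} [TopologicalSpace X] [T2Space X] [Group Γ] [MulAction Γ X]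
  [NormedAddCommGroup E] [NormedSpace ℝ E] [FiniteDimensional ℝ E] {dev : X → E}
  {hol : Γ →* (E ≃ᵃ[ℝ] E)}

/-- a continuous vector field without zeros on the quotient -/
def Field (dev : X → E) (hol : Γ →* (E ≃ᵃ[ℝ] E)) : Prop :=
  ∃ Z : X → E, Continuous Z ∧ (∀ (γ : Γ) x, Z (γ • x) = (hol γ).linear (Z x)) ∧ ∀ x, Z x ≠ 0

omit [T2Space X] in
theorem mfd_sec_smul (D : AffMfd X Γ E dev hol) (γ : Γ) {U : Set E} {σ : E → X}
    (h : Sec dev U σ) : Sec dev (hol γ '' U) (fun p => γ • σ (hol γ⁻¹ p)) := by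
  have hpre : hol γ '' U = hol γ⁻¹ ⁻¹' U := by
    ext p
    constructor
    · rintro ⟨q, hq, rfl⟩
      show hol γ⁻¹ (hol γ q) ∈ U
      rwa [hol_inv_apply]
    · intro hp
      exact ⟨hol γ⁻¹ p, hp, hol_apply_inv γ p⟩
  refine ⟨?_, ?_, ?_, ?_⟩
  · rw [hpre]; exact h.isOpen.preimage (hol_cont _)
  · rw [hpre]; exact h.convex.affine_preimage (hol γ⁻¹).toAffineMap
  · refine (D.cont γ).comp_continuousOn (h.cont.comp (hol_cont _).continuousOn ?_)
    rw [hpre]
    exact fun p hp => hp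
  · rintro _ ⟨q, hq, rfl⟩
    rw [D.equi, hol_inv_apply, h.inv q hq]

omit [T2Space X] in
theorem mfd_Ex_smul (D : AffMfd X Γ E dev hol) (γ : Γ) {x : X} {v : E} {y : X}
    (h : Ex dev x v y) : Ex dev (γ • x) (lin hol γ v) (γ • y) := by
  obtain ⟨U, σ, h1, h2, h3, h4, h5⟩ := h
  refine ⟨hol γ '' U, fun p => γ • σ (hol γ⁻¹ p), mfd_sec_smul D γ h1, ?_, ?_, ?_, ?_⟩
  · rw [D.equi]; exact ⟨_, h2, rfl⟩
  · rw [D.equi]; beta_reduce; rw [hol_inv_apply, h3]
  · rw [D.equi, ← hol_add]; exact ⟨_, h4, rfl⟩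
  · rw [D.equi, ← hol_add]; beta_reduce; rw [hol_inv_apply, h5]

/-- an invariant convex cone which is not symmetric gives a field -/
theorem field_of_asym (D : AffMfd X Γ E dev hol) {K : Set E}
    (hadd : ∀ v ∈ K, ∀ w ∈ K, v + w ∈ K) (hsm : ∀ v ∈ K, ∀ s : ℝ, 0 ≤ s → s • v ∈ K)
    (hlin : ∀ γ : Γ, ∀ v ∈ K, lin hol γ v ∈ K) {c0 : E} (hc0 : c0 ∈ K) (hc0' : -c0 ∉ K) :
    Field dev hol := by
  have hN : Convex ℝ {v | v ∈ K ∧ -v ∉ K} := by
    intro v hv w hw a b ha hb hab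
    refine ⟨hadd _ (hsm v hv.1 a ha) _ (hsm w hw.1 b hb), fun h => ?_⟩
    rcases eq_or_lt_of_le ha with h0 | h0
    · have hb1 : b = 1 := by linarith
      rw [← h0, hb1, zero_smul, zero_add, one_smul] at h
      exact hw.2 h
    · apply hv.2
      have h1 := hsm _ (hadd _ h _ (hsm w hw.1 b hb)) a⁻¹ (inv_nonneg.2 h0.le)
      have h2 : a⁻¹ • (-(a • v + b • w) + b • w) = -v := by
        have : -(a • v + b • w) + b • w = -(a • v) := by abel
        rw [this, smul_neg, smul_smul, inv_mul_cancel₀ h0.ne', one_smul]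
      rwa [h2] at h1
  refine field_of_convex D hN (c0 := c0) (fun h => h.2 ?_) fun γ => ⟨hlin γ c0 hc0, fun h => hc0' ?_⟩
  · rw [neg_zero]; exact h.1
  · have h1 := hlin γ⁻¹ _ h
    rwa [lin_neg, lin_inv_apply] at h1

/-- one-sided complete parallel directions -/
theorem field_of_dir (D : AffMfd X Γ E dev hol) {v : E} (hv : v ∈ CD dev) (hv' : -v ∉ CD dev) :
    Field dev hol := by
  refine field_of_asym D (K := CD dev) (fun v hv w hw => CD.add D.loc hv hw)
    (fun v hv s hs => CD.smul D.loc hv hs) (fun γ v hv x => ?_) hv hv'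
  obtain ⟨y, hy⟩ := hv (γ⁻¹ • x)
  have h1 := mfd_Ex_smul D γ hy
  rw [smul_inv_smul] at h1
  exact ⟨_, h1⟩

/-- one-sided translation directions of invariant sets -/
theorem field_of_set (D : AffMfd X Γ E dev hol) {C : Set E}
    (hinv : ∀ γ : Γ, ∀ q ∈ C, hol γ q ∈ C) {v : E} (hv : v ∈ Tr C) (hv' : -v ∉ Tr C) :
    Field dev hol := by
  refine field_of_asym D (K := Tr C) ?_ ?_ ?_ hv hv'
  · intro v hv w hw q hq t ht
    have := hw _ (hv q hq t ht) t ht
    rwa [add_assoc, ← smul_add] at this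
  · intro v hv s hs q hq t ht
    rw [smul_smul]
    exact hv q hq _ (mul_nonneg ht hs)
  · intro γ v hv q hq t ht
    have h1 := hinv γ _ (hv _ (hinv γ⁻¹ q hq) t ht)
    rw [hol_add, hol_apply_inv, lin_smul] at h1
    exact h1

end

end Pool.Agent.TH878.Mk
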